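import Mathlib
import Pool.Agent.D0H44.EC.Stm

/-! Project KC (MP_9cfc0a_nt slot 4): for almost all moduli `q ∈ (Q, 2 Q]`, `Q ≤ x ^ (1/2 - ε)`, and
EVERY primitive character `χ` modulo `q`, `ψ(u, χ)` is large in mean square over `u ∈ [x, 2 x]`.
Definitions and statements of the packages. Test functions: `w(u / x) e(u / (r q))`,
`r ∈ (R, 2 R]` prime. All definitions used here are in `D0H44/EC/Stm.lean`, `D0H44/FR/Stm.lean`. -/

open Finset MeasureTheory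

namespace Pool.Agent.D0H44.KC

open H343 (ex)
open Pool.Agent.H398R2.BV Pool.Agent.H410R2
open Pool.Agent.D0H44.EL
open Pool.Agent.D0H44.EM (ps Er)
open Pool.Agent.D0H44.FR
open Pool.Agent.D0H44.EC (gg)

/-- `ψ(u, χ)` -/
noncomputable def pc (q : ℕ) (χ : DirichletCharacter ℂ q) (u : ℝ) : ℂ :=
  ∑ n ∈ Icc 1 ⌊u⌋₊, ((ArithmeticFunction.vonMangoldt n : ℝ) : ℂ) * χ (n : ZMod q)

/-- the sum with the test function -/
noncomputable def TX (x : ℝ) (q r M : ℕ) (χ : DirichletCharacter ℂ q) : ℂ :=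
  ∑ n ∈ Icc 1 M, ((ArithmeticFunction.vonMangoldt n : ℝ) : ℂ) * χ (n : ZMod q) *
    (((w ((n : ℝ) / x) : ℝ) : ℂ) * ex ((n : ℝ) / ((r * q : ℕ) : ℝ)))

/-- package PX: the inner product (as package PD of project EC, `D0H42/EC/PD.lean`; also: sum
`χ a *` (PD) over the reduced classes `a` modulo `q`, if `χ ≠ 1`; here every `χ` is allowed and
the proof of PD works directly with the coefficients `Λ(n) χ(n)`). -/
def S_PX : Prop := ∀ (x : ℝ) (q r M : ℕ) (χ : DirichletCharacter ℂ q), 1 ≤ x → 1 ≤ q → 1 ≤ r →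
  2 * x ≤ M → ∫ u in x..(2 * x), pc q χ u * gg x q r u = -TX x q r M χ

/-- package DX: duality for one character (as package DU of project EC, `D0H12/EC/Du.lean`, with
`‖pc q χ u‖ ^ 2` instead of `Er q a u ^ 2`). -/
def S_DX : Prop := ∀ (q R : ℕ) (χ : DirichletCharacter ℂ q) (G : Finset ℕ) (x : ℝ), 1 ≤ x →
  1 ≤ q → 1 ≤ R → (∀ r ∈ G, R < r ∧ r ≤ 2 * R) →
  (∑ r ∈ G, ‖∫ u in x..(2 * x), pc q χ u * gg x q r u‖) ^ 2 ≤
    (∫ u in x..(2 * x), ‖pc q χ u‖ ^ 2) * ((300 / x ^ 2 + 100 / ((R : ℝ) * q) ^ 2) *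
      (G.card * (2 * x + G.card * (4 * (R : ℝ) ^ 2 * q))))

/-- Gauss sums -/
noncomputable def gs (q t : ℕ) (χ : DirichletCharacter ℂ q) : ℂ :=
  ∑ m ∈ range q, χ (m : ZMod q) * ex (((m * t : ℕ) : ℝ) / q)

/-- package GS: every character modulo `q` has `|τ| ≤ √q`: `|gs q b χ| = |gs q 1 χ|` for the `φ(q)`
residues `b` coprime to `q`, and `∑_{b mod q} |gs q b χ| ^ 2 = q ∑_m |χ m| ^ 2 = q φ(q)`
(Parseval). For primitive characters `= √q` (known; library: large sieve files, `H343.Gauss` or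
Mathlib `gaussSum`; or: `gs q b χ = 0` if `(b, q) > 1`, and Parseval again). -/
def S_GS : Prop := ∀ (q t : ℕ) (χ : DirichletCharacter ℂ q), 1 ≤ q → t.Coprime q →
  ‖gs q t χ‖ ≤ Real.sqrt q ∧ (χ.IsPrimitive → ‖gs q t χ‖ = Real.sqrt q)

/-- the sums with the nonprincipal characters modulo `r` -/
noncomputable def KR (x : ℝ) (q M r : ℕ) : ℝ := open Classical in
  ∑ ψ ∈ (univ : Finset (DirichletCharacter ℂ r)).erase 1, ∑ ω : DirichletCharacter ℂ q,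
    ‖∑ n ∈ Icc 1 M, ((ArithmeticFunction.vonMangoldt n : ℝ) : ℂ) *
      (((w ((n : ℝ) / x) : ℝ) : ℂ) * (ω (n : ZMod q) * ψ (n : ZMod r)))‖

/-- the sums with the nonprincipal characters modulo `q` -/
noncomputable def KN (x : ℝ) (q M : ℕ) : ℝ := open Classical in
  ∑ ω ∈ (univ : Finset (DirichletCharacter ℂ q)).erase 1, ‖SS M (fun y => w (y / x)) q ω‖

/-- the primes with the weight -/
noncomputable def PQ (x : ℝ) (q M : ℕ) : ℝ :=
  ∑ n ∈ (Icc 1 M).filter (fun n => n.Coprime q),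
    ArithmeticFunction.vonMangoldt n * w ((n : ℝ) / x)

/-- package EX: expansion into characters. Take `j`, `t` with `j q + t r ≡ 1 (mod q r)`, so
`e(n / (r q)) = e(n t / q) e(n j / r)`, `t` coprime to `q`, `j` coprime to `r`. For all `n`
`χ(n) e(n t / q) = (1 / φ(q)) ∑_ω gs q t (χ ω⁻¹) ω(n)`, all `‖gs‖ ≤ √q`, for `ω = 1` it is `√q`.
For `(n, r) = 1` `e(n j / r) = (1 / (r - 1)) ∑_ψ gs r j (ψ⁻¹) ψ(n)`, `gs r j 1 = -1` and
`‖gs r j ψ‖ ≤ √r`. The `n` divisible by `r` contribute at most `log M` to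
`∑ Λ(n) ..`, twice. Compare package CG of project EC (`D0H12/EC/Cg.lean`). -/
def S_EX : Prop := ∀ (x : ℝ) (q M r : ℕ) (χ : DirichletCharacter ℂ q), 1 ≤ x → 1 ≤ q → 1 ≤ M →
  r.Prime → ¬ r ∣ q → χ.IsPrimitive →
  Real.sqrt q / (((r : ℝ) - 1) * Nat.totient q) * PQ x q M ≤ ‖TX x q r M χ‖ +
    Real.sqrt q / (((r : ℝ) - 1) * Nat.totient q) * (Real.sqrt r * KR x q M r + KN x q M) +
    3 * Real.log M

/-- package C1: reduction to primitive characters (this is inside the proof of `t_CQ` in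
`D0H28/EC/CQ.lean`, steps `h2` to `h4` there). -/
def S_C1 : Prop := ∀ (x : ℝ) (q M r : ℕ), 1 ≤ x → 1 ≤ q → 1 ≤ M → r.Prime → ¬ r ∣ q →
  KR x q M r ≤ ∑ f ∈ (q * r).divisors.filter (fun f => ¬ f ∣ q),
      ∑ ψ ∈ Prim f, ‖SS M (fun y => w (y / x)) f ψ‖ +
    (Nat.totient q : ℝ) * r * ((q * r).primeFactors.card * Real.log M)

/-- package C2: the same modulo `q` (`sum_char_prim`, `SS_changeLevel`, `ncs_bound` there). -/
def S_C2 : Prop := ∀ (x : ℝ) (q M : ℕ), 1 ≤ x → 1 ≤ q → 1 ≤ M →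
  KN x q M ≤ ∑ f ∈ q.divisors.filter (fun f => 2 ≤ f),
      ∑ ψ ∈ Prim f, ‖SS M (fun y => w (y / x)) f ψ‖ +
    (Nat.totient q : ℝ) * (q.primeFactors.card * Real.log M)

/-- package SW: the theorem of Siegel and Walfisz (in the library: `Pool.Agent.H410R2.SiegelWalfisz`
of `H410R2/Iface.lean` is proved) integrated: for `y ≤ x ^ (1/2)` use
`‖psiLog y f ψ‖ ≤ y (log y) ^ 2` or any trivial bound, for `x ^ (1/2) ≤ y ≤ 2 x` the theorem with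
`A + 2` and `2 B` in place of `A` and `B`; `PG` agrees with `psiLog` (see `t_IS` in
`D0H51/FR/PS.lean`). -/
def S_SW : Prop := ∀ A B : ℕ, ∃ x₀ : ℝ, ∀ x : ℝ, x₀ ≤ x → ∀ f : ℕ, 2 ≤ f →
  (f : ℝ) ≤ Real.log x ^ B → ∀ ψ ∈ Prim f, II (2 * x) f ψ ≤ x / Real.log x ^ A

/-- package AQ: averages over the moduli. `#{q ∈ (Q, 2Q] : f ∣ q} ≤ Q / f + 1 ≤ 3 Q / f` for
`f ≤ 2 Q`; for `f ≤ F` use `X f / f ≤ X f`; Abel summation over `F < f ≤ 2 Q`. -/
def S_AQ : Prop := ∀ (Q F : ℕ) (X : ℕ → ℝ) (A B C D : ℝ), 1 ≤ Q → 1 ≤ F → (∀ f, 0 ≤ X f) →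
  0 ≤ A → 0 ≤ B → 0 ≤ C → ∑ f ∈ Icc 2 F, X f ≤ D →
  (∀ t : ℕ, F ≤ t → t ≤ 2 * Q → ∑ f ∈ Icc 2 t, X f ≤ A + B * t + C * (t : ℝ) ^ 2) →
  ∑ q ∈ Ioc Q (2 * Q), ∑ f ∈ q.divisors.filter (fun f => 2 ≤ f), X f ≤
    20 * Q * (1 + Real.log ((2 * Q : ℕ) : ℝ)) * (D + A / F + B + C * Q)

/-- package PP: the prime number theorem (`EL.psi_bds (1 / 1000)`; `w ≥ 1 / 4` on
`[5/4, 9/5]`; `w = 0` beyond `2`), minus the prime powers not coprime to `q`
(`sum_not_coprime`, `omega_le_log`). -/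
def S_PP : Prop := ∃ x₀ : ℝ, ∀ (x : ℝ) (q M : ℕ), x₀ ≤ x → 1 ≤ q → (q : ℝ) ≤ x → 2 * x ≤ M →
  x / 20 ≤ PQ x q M

end Pool.Agent.D0H44.KC
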