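import Mathlib
import Pool.Agent.D0H44.KC.Stm

/-! One modulus and one primitive character. -/

open Finset MeasureTheory

namespace Pool.Agent.D0H44.KC

open H343 (ex)
open Pool.Agent.H398R2.BV Pool.Agent.H410R2
open Pool.Agent.D0H44.EL
open Pool.Agent.D0H44.EM (ps Er)
open Pool.Agent.D0H44.FR
open Pool.Agent.D0H44.EC (gg)

/-- one modulus, one character: if the sums over the other characters are small, the mean square
is large -/
theorem core1 (hPX : S_PX) (hDX : S_DX) (hEX : S_EX) (x Lg : ℝ) (q M R : ℕ)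
    (χ : DirichletCharacter ℂ q) (hχ : χ.IsPrimitive) (G : Finset ℕ)
    (hx : 1 ≤ x) (hLg : 1 ≤ Lg) (hq : 1 ≤ q) (hR : 1 ≤ R) (hM : 2 * x ≤ M)
    (hlM : Real.log M ≤ 2 * Lg)
    (hG : ∀ r ∈ G, r.Prime ∧ R < r ∧ r ≤ 2 * R) (hGq : ∀ r ∈ G, ¬ r ∣ q)
    (hGc : (R : ℝ) ≤ 4 * Lg * G.card) (hGR : (G.card : ℝ) ≤ R)
    (hRq : 2 * (R : ℝ) ^ 3 * q ≤ x) (hsz : 10 ^ 6 * Lg ^ 2 * (R : ℝ) ^ 2 * q ≤ x)
    (hPQ : x / 20 ≤ PQ x q M) (hKN : KN x q M ≤ x / 100)
    (hKR : ∑ r ∈ G, Real.sqrt r / (((r : ℝ) - 1) * Nat.totient q) * KR x q M r ≤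
      G.card * x / (400 * R * (Nat.totient q : ℝ))) :
    (R : ℝ) * q * x ≤ 10 ^ 9 * Lg * ∫ u in x..(2 * x), ‖pc q χ u‖ ^ 2 := by
  set V := ∫ u in x..(2 * x), ‖pc q χ u‖ ^ 2 with hV
  have hx0 : 0 < x := by linarith
  have hR0 : (1 : ℝ) ≤ R := by exact_mod_cast hR
  have hq0 : (1 : ℝ) ≤ q := by exact_mod_cast hq
  have hRpos : (0 : ℝ) < R := by linarith
  have hqpos : (0 : ℝ) < q := by linarith
  have hφ : (1 : ℝ) ≤ Nat.totient q := by exact_mod_cast Nat.totient_pos.2 hq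
  have hφ0 : (0 : ℝ) < Nat.totient q := by linarith
  have hφq : (Nat.totient q : ℝ) ≤ q := by exact_mod_cast Nat.totient_le q
  have hM1 : 1 ≤ M := by
    have : (1 : ℝ) ≤ M := by linarith
    exact_mod_cast this
  have hg0 : (0 : ℝ) < G.card := by
    by_contra hc
    push Not at hc
    have : (4 : ℝ) * Lg * G.card ≤ 0 := mul_nonpos_of_nonneg_of_nonpos (by positivity) hc
    linarith
  obtain ⟨φ, hφd⟩ : ∃ φ : ℝ, φ = (Nat.totient q : ℝ) := ⟨_, rfl⟩
  rw [← hφd] at hφ hφ0 hφq hKR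
  set g : ℝ := (G.card : ℝ) with hg
  obtain ⟨σ, hσ⟩ : ∃ σ : ℝ, σ = Real.sqrt q := ⟨_, rfl⟩
  have hσ2 : σ ^ 2 = q := by rw [hσ, Real.sq_sqrt (by linarith)]
  have hσ1 : 1 ≤ σ := by
    rw [hσ]
    exact Real.one_le_sqrt.2 hq0
  have hσ0 : 0 < σ := by linarith
  have hV0 : 0 ≤ V := by
    rw [hV]
    apply intervalIntegral.integral_nonneg (by linarith)
    intro u _
    positivity
  have h1 : ∀ r ∈ G, σ * x / (50 * R * φ) -
      σ * (Real.sqrt r / (((r : ℝ) - 1) * φ) * KR x q M r) - 6 * Lg ≤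
      ‖∫ u in x..(2 * x), pc q χ u * gg x q r u‖ := by
    intro r hr
    obtain ⟨g1, g2, g3⟩ := hG r hr
    have h := hEX x q M r χ hx hq hM1 g1 (hGq r hr) hχ
    rw [hPX x q r M χ hx hq g1.one_le hM, norm_neg]
    rw [← hσ, ← hφd] at h
    have g3' : (r : ℝ) ≤ 2 * R := by exact_mod_cast g3
    have g1' : (1 : ℝ) < r := by exact_mod_cast g1.one_lt
    have hr1 : 0 < (r : ℝ) - 1 := by linarith
    have k1 : σ * x / (50 * R * φ) ≤ σ / (((r : ℝ) - 1) * φ) * (PQ x q M - KN x q M) := by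
      have k2 : σ / (2 * (R : ℝ) * φ) ≤ σ / (((r : ℝ) - 1) * φ) := by
        gcongr
        linarith
      calc σ * x / (50 * R * φ) = σ / (2 * (R : ℝ) * φ) * (x / 25) := by
            first | (field_simp; done) | (field_simp; ring) | (field_simp; norm_num)
        _ ≤ σ / (((r : ℝ) - 1) * φ) * (PQ x q M - KN x q M) := by
            apply mul_le_mul k2 (by linarith) (by positivity)
            positivity
    have k3 : σ / (((r : ℝ) - 1) * φ) * (Real.sqrt r * KR x q M r) =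
        σ * (Real.sqrt r / (((r : ℝ) - 1) * φ) * KR x q M r) := by ring
    have k4 : σ / (((r : ℝ) - 1) * φ) * (PQ x q M - KN x q M) =
      σ / (((r : ℝ) - 1) * φ) * PQ x q M - σ / (((r : ℝ) - 1) * φ) * KN x q M := by ring
    have k5 : σ / (((r : ℝ) - 1) * φ) * (Real.sqrt r * KR x q M r + KN x q M) =
      σ / (((r : ℝ) - 1) * φ) * (Real.sqrt r * KR x q M r) +
        σ / (((r : ℝ) - 1) * φ) * KN x q M := by ring
    rw [k4] at k1
    rw [k5, k3] at h
    linarith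
  have h2 := sum_le_sum h1
  rw [sum_sub_distrib, sum_sub_distrib, sum_const, sum_const, nsmul_eq_mul, nsmul_eq_mul,
    ← hg, ← mul_sum] at h2
  set T := ∑ r ∈ G, ‖∫ u in x..(2 * x), pc q χ u * gg x q r u‖ with hT
  -- the small terms
  have h3 : 6 * Lg ≤ σ * x / (400 * R * φ) := by
    rw [le_div_iff₀ (by positivity)]
    calc 6 * Lg * (400 * R * φ) ≤ 6 * Lg * (400 * R * q) := by gcongr
      _ = 2400 * (Lg * R * q) := by ring
      _ ≤ 2400 * (Lg ^ 2 * (R : ℝ) ^ 2 * q) := by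
          have m1 : Lg ≤ Lg ^ 2 := by nlinarith
          have m2 : (R : ℝ) ≤ (R : ℝ) ^ 2 := by nlinarith
          gcongr
      _ ≤ 10 ^ 6 * (Lg ^ 2 * (R : ℝ) ^ 2 * q) := by
          gcongr
          norm_num
      _ = 10 ^ 6 * Lg ^ 2 * (R : ℝ) ^ 2 * q := by ring
      _ ≤ x := hsz
      _ ≤ σ * x := by nlinarith
  have h4 : σ * (g * x) / (100 * R * φ) ≤ T := by
    have e1 : g * (σ * x / (50 * R * φ)) = 8 * (σ * (g * x) / (400 * R * φ)) := by
      first | (field_simp; done) | (field_simp; ring) | (field_simp; norm_num)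
    have e2 : σ * (g * x) / (100 * R * φ) = 4 * (σ * (g * x) / (400 * R * φ)) := by
      first | (field_simp; done) | (field_simp; ring) | (field_simp; norm_num)
    have e3 : σ * (g * x / (400 * R * φ)) = σ * (g * x) / (400 * R * φ) := by
      rw [← mul_div_assoc]
    have e4 : g * (σ * x / (400 * R * φ)) = σ * (g * x) / (400 * R * φ) := by
      first | (field_simp; done) | (field_simp; ring) | (field_simp; norm_num)
    have h5 : g * (6 * Lg) ≤ g * (σ * x / (400 * R * φ)) := by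
      gcongr
    have h6 := mul_le_mul_of_nonneg_left hKR hσ0.le
    rw [e3] at h6
    rw [e4] at h5
    rw [e2]
    rw [e1] at h2
    have h7 : 0 ≤ σ * (g * x) / (400 * R * φ) := by positivity
    linarith
  have h5 := hDX q R χ G x hx hq hR (fun r hr => ⟨(hG r hr).2.1, (hG r hr).2.2⟩)
  rw [← hT, ← hV, ← hg] at h5
  have h6 : (300 / x ^ 2 + 100 / ((R : ℝ) * q) ^ 2) * (g * (2 * x + g * (4 * (R : ℝ) ^ 2 * q))) ≤
      400 / ((R : ℝ) * q) ^ 2 * (g * (4 * x)) := by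
    have hRqx : (R : ℝ) * q ≤ x := by
      calc (R : ℝ) * q ≤ 2 * (R : ℝ) ^ 3 * q := by
            gcongr
            calc (R : ℝ) = (R : ℝ) ^ 1 := (pow_one _).symm
              _ ≤ (R : ℝ) ^ 3 := pow_le_pow_right₀ hR0 (by norm_num)
              _ ≤ 2 * (R : ℝ) ^ 3 := by
                  have : 0 ≤ (R : ℝ) ^ 3 := by positivity
                  linarith
        _ ≤ x := hRq
    have k1 : 300 / x ^ 2 ≤ 300 / ((R : ℝ) * q) ^ 2 := by gcongr
    have k2 : 300 / ((R : ℝ) * q) ^ 2 + 100 / ((R : ℝ) * q) ^ 2 = 400 / ((R : ℝ) * q) ^ 2 := by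
      rw [← add_div]
      norm_num
    have k3 : g * (4 * (R : ℝ) ^ 2 * q) ≤ 2 * x := by
      calc g * (4 * (R : ℝ) ^ 2 * q) ≤ R * (4 * (R : ℝ) ^ 2 * q) := by gcongr
        _ = 2 * (2 * (R : ℝ) ^ 3 * q) := by ring
        _ ≤ 2 * x := by gcongr
    have k4 : g * (2 * x + g * (4 * (R : ℝ) ^ 2 * q)) ≤ g * (4 * x) := by
      gcongr
      linarith
    rw [← k2]
    gcongr
  have h7 : (σ * (g * x) / (100 * R * φ)) ^ 2 ≤ V * (400 / ((R : ℝ) * q) ^ 2 * (g * (4 * x))) := by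
    calc (σ * (g * x) / (100 * R * φ)) ^ 2 ≤ T ^ 2 := by gcongr
      _ ≤ V * ((300 / x ^ 2 + 100 / ((R : ℝ) * q) ^ 2) *
          (g * (2 * x + g * (4 * (R : ℝ) ^ 2 * q)))) := h5
      _ ≤ _ := by gcongr
  have h8 : q * (g * x) ≤ 16000000 * V := by
    have k1 : (σ * (g * x) / (100 * R * q)) ^ 2 ≤
        V * (400 / ((R : ℝ) * q) ^ 2 * (g * (4 * x))) := by
      refine le_trans ?_ h7
      gcongr
    have k2 : (σ * (g * x) / (100 * R * q)) ^ 2 * (10000 * (R * q) ^ 2) ≤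
        V * (400 / ((R : ℝ) * q) ^ 2 * (g * (4 * x))) * (10000 * (R * q) ^ 2) := by gcongr
    have e1 : (σ * (g * x) / (100 * R * q)) ^ 2 * (10000 * (R * q) ^ 2) =
        (g * x) * (q * (g * x)) := by
      have e0 : (σ * (g * x) / (100 * R * q)) ^ 2 * (10000 * (R * q) ^ 2) =
          σ ^ 2 * (g * x) ^ 2 := by
        first | (field_simp; done) | (field_simp; ring) | (field_simp; norm_num)
      rw [e0, hσ2]
      ring
    have e2 : V * (400 / ((R : ℝ) * q) ^ 2 * (g * (4 * x))) * (10000 * (R * q) ^ 2) =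
        (g * x) * (16000000 * V) := by
      first | (field_simp; done) | (field_simp; ring) | (field_simp; norm_num)
    rw [e1, e2] at k2
    exact le_of_mul_le_mul_left k2 (by positivity)
  calc (R : ℝ) * q * x ≤ (4 * Lg * g) * q * x := by gcongr
    _ = 4 * Lg * (q * (g * x)) := by ring
    _ ≤ 4 * Lg * (16000000 * V) := by gcongr
    _ = (64000000 * Lg) * V := by ring
    _ ≤ (10 ^ 9 * Lg) * V := by
        gcongr
        norm_num
    _ = _ := by ring

end Pool.Agent.D0H44.KC
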