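import Mathlib
import Pool.Agent.D0H44.KC.Core
import Pool.Agent.D0H44.EC.Avg

/-! The sums over the characters. -/

open Finset MeasureTheory

namespace Pool.Agent.D0H44.KC

open H343 (ex)
open Pool.Agent.H398R2.BV Pool.Agent.H410R2
open Pool.Agent.D0H44.EL
open Pool.Agent.D0H44.EM (ps Er)
open Pool.Agent.D0H44.FR
open Pool.Agent.D0H44.EC (gg XX XX_nonneg XX_sum SS_le DD)

/-- the error in terms of `DD` -/
theorem KR_le (hW : S_W) (hPS : S_PS) (hC1 : S_C1) (x Lg : ℝ) (q M R : ℕ) (G : Finset ℕ)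
    (hx : 1 ≤ x) (hLg : 1 ≤ Lg) (hq : 1 ≤ q) (hR : 1 ≤ R) (hM : 2 * x ≤ M)
    (hlM : Real.log M ≤ 2 * Lg) (hlq : Real.log ((2 * R * q : ℕ) : ℝ) ≤ Lg)
    (hG : ∀ r ∈ G, r.Prime ∧ R < r ∧ r ≤ 2 * R) :
    ∑ r ∈ G.filter (fun r => ¬ r ∣ q),
      Real.sqrt r / (((r : ℝ) - 1) * Nat.totient q) * KR x q M r ≤
      2 * Real.sqrt R * DD x G q +
        (G.filter (fun r => ¬ r ∣ q)).card * (16 * (Lg ^ 2 * R)) := by
  have hM1 : 1 ≤ M := by
    have : (1 : ℝ) ≤ M := by linarith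
    exact_mod_cast this
  have hR0 : (1 : ℝ) ≤ R := by exact_mod_cast hR
  have hlM0 : 0 ≤ Real.log M := Real.log_natCast_nonneg M
  unfold DD
  rw [mul_sum, ← nsmul_eq_mul, ← sum_const, ← sum_add_distrib]
  apply sum_le_sum
  intro r hr
  rw [mem_filter] at hr
  obtain ⟨g1, g2, g3⟩ := hG r hr.1
  have h := hC1 x q M r hx hq hM1 g1 hr.2
  have h2 : ∑ f ∈ (q * r).divisors.filter (fun f => ¬ f ∣ q),
      ∑ ψ ∈ Prim f, ‖SS M (fun y => w (y / x)) f ψ‖ ≤
      ∑ f ∈ (q * r).divisors.filter (fun f => ¬ f ∣ q), XX x f := by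
    apply sum_le_sum
    intro f _
    unfold XX
    apply sum_le_sum
    intro ψ _
    exact SS_le hW hPS x M hx hM f ψ
  have hr1 : (2 : ℝ) ≤ r := by exact_mod_cast g1.two_le
  have g3' : (r : ℝ) ≤ 2 * R := by exact_mod_cast g3
  have hφ0 : (0 : ℝ) < Nat.totient q := by exact_mod_cast Nat.totient_pos.2 hq
  have hco : q.Coprime r := ((Nat.Prime.coprime_iff_not_dvd g1).2 hr.2).symm
  have hφr : (Nat.totient (q * r) : ℝ) = Nat.totient q * ((r : ℝ) - 1) := by
    rw [Nat.totient_mul hco, Nat.totient_prime g1]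
    push_cast
    rw [Nat.cast_sub g1.one_le]
    simp
  have hom : ((q * r).primeFactors.card : ℝ) ≤ 2 * Lg := by
    have h3 := omega_le_log (q * r) (Nat.mul_pos hq g1.pos)
    have h4 : Real.log ((q * r : ℕ) : ℝ) ≤ Real.log ((2 * R * q : ℕ) : ℝ) := by
      apply Real.log_le_log
      · exact_mod_cast Nat.mul_pos hq g1.pos
      · have : q * r ≤ 2 * R * q := by
          calc q * r ≤ q * (2 * R) := Nat.mul_le_mul_left _ g3
            _ = 2 * R * q := by ring
        exact_mod_cast this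
    linarith
  have hsr : Real.sqrt r ≤ 2 * Real.sqrt R := by
    rw [Real.sqrt_le_left (by positivity), mul_pow, Real.sq_sqrt (by linarith)]
    linarith
  have hsr0 : 0 ≤ Real.sqrt r := Real.sqrt_nonneg _
  set E := ∑ f ∈ (q * r).divisors.filter (fun f => ¬ f ∣ q), XX x f with hE
  have hE0 : 0 ≤ E := sum_nonneg fun f _ => XX_nonneg x hx f
  have hr10 : 0 < (r : ℝ) - 1 := by linarith
  have h5 : KR x q M r ≤ E + Nat.totient q * r * (4 * Lg ^ 2) := by
    refine h.trans ?_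
    have k2 : (Nat.totient q : ℝ) * r * (((q * r).primeFactors.card : ℝ) * Real.log M) ≤
        Nat.totient q * r * (4 * Lg ^ 2) := by
      have : ((q * r).primeFactors.card : ℝ) * Real.log M ≤ (2 * Lg) * (2 * Lg) := by gcongr
      calc (Nat.totient q : ℝ) * r * (((q * r).primeFactors.card : ℝ) * Real.log M) ≤
          Nat.totient q * r * ((2 * Lg) * (2 * Lg)) := by gcongr
        _ = _ := by ring
    linarith
  calc Real.sqrt r / (((r : ℝ) - 1) * Nat.totient q) * KR x q M r ≤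
      Real.sqrt r / (((r : ℝ) - 1) * Nat.totient q) * (E + Nat.totient q * r * (4 * Lg ^ 2)) := by
        gcongr
    _ = Real.sqrt r * (1 / (Nat.totient (q * r) : ℝ) * E) +
        (Real.sqrt r * (r / ((r : ℝ) - 1))) * (4 * Lg ^ 2) := by
        rw [hφr]
        field_simp
    _ ≤ 2 * Real.sqrt R * (1 / (Nat.totient (q * r) : ℝ) * E) + (2 * R * 2) * (4 * Lg ^ 2) := by
        have k3 : (r : ℝ) / ((r : ℝ) - 1) ≤ 2 := by
          rw [div_le_iff₀ hr10]
          linarith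
        have k4 : Real.sqrt r ≤ 2 * R := by
          have h6 : Real.sqrt R ≤ R := by
            rw [Real.sqrt_le_left (by linarith)]
            nlinarith
          linarith
        gcongr
    _ = _ := by ring

/-- the sums for one modulus -/
noncomputable def NN (x : ℝ) (q : ℕ) : ℝ := ∑ f ∈ q.divisors.filter (fun f => 2 ≤ f), XX x f

theorem KN_le (hW : S_W) (hPS : S_PS) (hC2 : S_C2) (x Lg : ℝ) (q M : ℕ)
    (hx : 1 ≤ x) (hLg : 1 ≤ Lg) (hq : 1 ≤ q) (hM : 2 * x ≤ M)
    (hlM : Real.log M ≤ 2 * Lg) (hlq : Real.log q ≤ Lg) :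
    KN x q M ≤ NN x q + 4 * Lg ^ 2 * q := by
  have hM1 : 1 ≤ M := by
    have : (1 : ℝ) ≤ M := by linarith
    exact_mod_cast this
  have hlM0 : 0 ≤ Real.log M := Real.log_natCast_nonneg M
  refine (hC2 x q M hx hq hM1).trans ?_
  have h2 : ∑ f ∈ q.divisors.filter (fun f => 2 ≤ f),
      ∑ ψ ∈ Prim f, ‖SS M (fun y => w (y / x)) f ψ‖ ≤ NN x q := by
    unfold NN
    apply sum_le_sum
    intro f _
    unfold XX
    apply sum_le_sum
    intro ψ _
    exact SS_le hW hPS x M hx hM f ψ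
  have hom : (q.primeFactors.card : ℝ) ≤ 2 * Lg := by
    have h3 := omega_le_log q hq
    linarith
  have hφq : (Nat.totient q : ℝ) ≤ q := by exact_mod_cast Nat.totient_le q
  have h3 : (Nat.totient q : ℝ) * (q.primeFactors.card * Real.log M) ≤ 4 * Lg ^ 2 * q := by
    calc (Nat.totient q : ℝ) * (q.primeFactors.card * Real.log M) ≤
        q * ((2 * Lg) * (2 * Lg)) := by gcongr
      _ = _ := by ring
  linarith

end Pool.Agent.D0H44.KC
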