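import Mathlib
import Pool.Agent.D0H44.KC.Avg

/-! The average over the moduli of the sums over the nonprincipal characters. -/

open Finset MeasureTheory

namespace Pool.Agent.D0H44.KC

open H343 (ex)
open Pool.Agent.H398R2.BV Pool.Agent.H410R2
open Pool.Agent.D0H44.EL
open Pool.Agent.D0H44.EM (ps Er)
open Pool.Agent.D0H44.FR
open Pool.Agent.D0H44.EC (gg XX XX_nonneg XX_sum SS_le DD)

/-- the small conductors: the theorem of Siegel and Walfisz -/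
theorem small_f (a : ℕ) (x Lg : ℝ) (F : ℕ)
    (hSWx : ∀ f : ℕ, 2 ≤ f → (f : ℝ) ≤ Real.log x ^ (a + 7) → ∀ ψ ∈ Prim f,
      FR.II (2 * x) f ψ ≤ x / Real.log x ^ (3 * a + 16))
    (hx0 : 0 < x) (hl1 : 2 ^ (a + 6) * (2 * 10 ^ 10) ≤ Real.log x) (hLg : Lg ≤ 2 * Real.log x)
    (hLg1 : 1 ≤ Lg) (hF : (F : ℝ) ≤ 2 * (10 ^ 10 * Lg ^ (a + 6))) :
    ∑ f ∈ Icc 2 F, XX x f ≤ x / (80000 * Lg ^ (a + 1)) := by
  obtain ⟨l, hl⟩ : ∃ l : ℝ, l = Real.log x := ⟨_, rfl⟩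
  rw [← hl] at hSWx hl1 hLg
  have h2a : (1 : ℝ) ≤ 2 ^ (a + 6) := one_le_pow₀ (by norm_num)
  have hl0 : 1 ≤ l := by linarith
  have hlpos : 0 < l := by linarith
  have hFl : (F : ℝ) ≤ l ^ (a + 7) := by
    calc (F : ℝ) ≤ 2 * (10 ^ 10 * Lg ^ (a + 6)) := hF
      _ ≤ 2 * (10 ^ 10 * (2 * l) ^ (a + 6)) := by gcongr
      _ = (2 ^ (a + 6) * (2 * 10 ^ 10)) * l ^ (a + 6) := by rw [mul_pow]; ring
      _ ≤ l * l ^ (a + 6) := by gcongr
      _ = l ^ (a + 7) := by ring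
  have h1 : ∑ f ∈ Icc 2 F, XX x f ≤ ∑ _f ∈ Icc 2 F, (F : ℝ) * (600 * (x / l ^ (3 * a + 16))) := by
    apply sum_le_sum
    intro f hf
    rw [mem_Icc] at hf
    unfold XX
    have hfF : (f : ℝ) ≤ F := by exact_mod_cast hf.2
    calc ∑ ψ ∈ Prim f, 600 * FR.II (2 * x) f ψ ≤ ∑ _ψ ∈ Prim f, 600 * (x / l ^ (3 * a + 16)) := by
          apply sum_le_sum
          intro ψ hψ
          have := hSWx f hf.1 (hfF.trans hFl) ψ hψ
          linarith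
      _ = (Prim f).card * (600 * (x / l ^ (3 * a + 16))) := by rw [sum_const, nsmul_eq_mul]
      _ ≤ F * (600 * (x / l ^ (3 * a + 16))) := by
          apply mul_le_mul_of_nonneg_right _ (by positivity)
          refine (card_prim_le (by omega)).trans (le_trans ?_ hfF)
          exact_mod_cast Nat.totient_le f
  refine h1.trans ?_
  rw [sum_const, nsmul_eq_mul, Nat.card_Icc]
  have h2 : ((F + 1 - 2 : ℕ) : ℝ) ≤ F := by
    have : F + 1 - 2 ≤ F := by omega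
    exact_mod_cast this
  have h3 : 600 * 80000 * Lg ^ (a + 1) ≤ l ^ (a + 2) := by
    calc 600 * 80000 * Lg ^ (a + 1) ≤ 600 * 80000 * (2 * l) ^ (a + 1) := by gcongr
      _ = (2 ^ (a + 1) * 48000000) * l ^ (a + 1) := by rw [mul_pow]; ring
      _ ≤ (2 ^ (a + 6) * (2 * 10 ^ 10)) * l ^ (a + 1) := by
          gcongr
          · norm_num
          · norm_num
          · norm_num
      _ ≤ l * l ^ (a + 1) := by gcongr
      _ = l ^ (a + 2) := by ring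
  calc ((F + 1 - 2 : ℕ) : ℝ) * (F * (600 * (x / l ^ (3 * a + 16)))) ≤
      F * (F * (600 * (x / l ^ (3 * a + 16)))) := by gcongr
    _ ≤ l ^ (a + 7) * (l ^ (a + 7) * (600 * (x / l ^ (3 * a + 16)))) := by gcongr
    _ = 600 * x / l ^ (a + 2) := by
        have e : l ^ (3 * a + 16) = l ^ (a + 7) * l ^ (a + 7) * l ^ (a + 2) := by
          rw [← pow_add, ← pow_add]
          congr 1
          ring
        rw [e]
        field_simp
    _ ≤ x / (80000 * Lg ^ (a + 1)) := by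
        rw [div_le_div_iff₀ (by positivity) (by positivity)]
        calc 600 * x * (80000 * Lg ^ (a + 1)) = x * (600 * 80000 * Lg ^ (a + 1)) := by ring
          _ ≤ x * l ^ (a + 2) := by gcongr

/-- the average of `NN` over the moduli -/
theorem NN_sum (hIS : S_IS) (hAQ : S_AQ) (a m Q : ℕ) (t Lg x : ℝ)
    (hSWx : ∀ f : ℕ, 2 ≤ f → (f : ℝ) ≤ Real.log x ^ (a + 7) → ∀ ψ ∈ Prim f,
      FR.II (2 * x) f ψ ≤ x / Real.log x ^ (3 * a + 16))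
    (hl1 : 2 ^ (a + 6) * (2 * 10 ^ 10) ≤ Real.log x) (hLg2 : Lg ≤ 2 * Real.log x)
    (hm : 40 ≤ m) (hx : 1 ≤ x) (hZ : 2 * x = t ^ (6 * m)) (hLg1 : 1 ≤ Lg)
    (hLg : Lg = 1 + Real.log (2 * x)) (hLt : 10 ^ 10 * Lg ^ (a + 6) ≤ t) (hQ : 1 ≤ Q)
    (hQ2 : (Q : ℝ) ^ 2 * t ^ 66 ≤ 2 * x) :
    ∑ q ∈ Ioc Q (2 * Q), NN x q ≤ Q * (x / (1000 * Lg ^ a)) := by
  have hx0 : 0 < x := by linarith
  have hLa : 1 ≤ Lg ^ (a + 6) := one_le_pow₀ hLg1
  have ht10 : (10 : ℝ) ^ 10 ≤ t := by linarith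
  have ht1 : (1 : ℝ) ≤ t := by linarith
  have ht0 : 0 < t := by linarith
  have hQ0 : (1 : ℝ) ≤ Q := by exact_mod_cast hQ
  obtain ⟨P, hP⟩ : ∃ P : ℝ, P = t ^ (3 * m) := ⟨_, rfl⟩
  have hP0 : 0 < P := by rw [hP]; positivity
  have hP2 : P ^ 2 = 2 * x := by
    rw [hP, hZ]
    ring
  have hPt : t ^ 3 ≤ P := by
    rw [hP]
    exact pow_le_pow_right₀ ht1 (by omega)
  have hQP : (Q : ℝ) * t ^ 33 ≤ P := by
    have h1 : ((Q : ℝ) * t ^ 33) ^ 2 ≤ P ^ 2 := by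
      calc ((Q : ℝ) * t ^ 33) ^ 2 = (Q : ℝ) ^ 2 * t ^ 66 := by ring
        _ ≤ 2 * x := hQ2
        _ = P ^ 2 := hP2.symm
    exact (abs_le_of_sq_le_sq' h1 hP0.le).2
  obtain ⟨F, hF⟩ : ∃ F : ℕ, F = ⌈10 ^ 10 * Lg ^ (a + 6)⌉₊ := ⟨_, rfl⟩
  have hF1 : 10 ^ 10 * Lg ^ (a + 6) ≤ F := by rw [hF]; exact Nat.le_ceil _
  have hF2 : (F : ℝ) ≤ 2 * (10 ^ 10 * Lg ^ (a + 6)) := by
    have h1 := Nat.ceil_lt_add_one (by positivity : 0 ≤ 10 ^ 10 * Lg ^ (a + 6))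
    rw [← hF] at h1
    linarith
  have hFr : (1 : ℝ) ≤ F := by linarith
  have hF3 : 1 ≤ F := by exact_mod_cast hFr
  have hD := small_f a x Lg F hSWx hx0 hl1 hLg2 hLg1 hF2
  -- the parameter `U`
  obtain ⟨U, hU1, hU2⟩ : ∃ U : ℕ, t ^ 2 ≤ U ∧ (U : ℝ) ≤ 2 * t ^ 2 := by
    refine ⟨⌈t ^ 2⌉₊, Nat.le_ceil _, ?_⟩
    have h1 := Nat.ceil_lt_add_one (by positivity : 0 ≤ t ^ 2)
    have h2 : 1 ≤ t ^ 2 := one_le_pow₀ ht1
    linarith
  have hUr : (1 : ℝ) ≤ U := (one_le_pow₀ ht1).trans hU1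
  have hU : 1 ≤ U := by exact_mod_cast hUr
  obtain ⟨J, hJ⟩ : ∃ J : ℕ, J = 2 * Q := ⟨_, rfl⟩
  have hJr : (J : ℝ) = 2 * Q := by rw [hJ]; push_cast; ring
  have ht33 : 4 * t ^ 2 ≤ t ^ 33 := by
    calc 4 * t ^ 2 ≤ t * t ^ 2 := by
          gcongr
          linarith
      _ = t ^ 3 := by ring
      _ ≤ t ^ 33 := pow_le_pow_right₀ ht1 (by norm_num)
  have hQ3 : (Q : ℝ) * (4 * t ^ 2) ≤ P := le_trans (by gcongr) hQP
  have hPP : P ≤ P ^ 2 := by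
    have : 1 ≤ P := (one_le_pow₀ ht1).trans hPt
    nlinarith
  have hJx : (J : ℝ) ≤ 2 * x := by
    rw [hJr, ← hP2]
    refine le_trans ?_ hPP
    refine le_trans ?_ hQ3
    have : (1 : ℝ) ≤ t ^ 2 := one_le_pow₀ ht1
    nlinarith
  have hsY : Real.sqrt (2 * x) ≤ P := by
    rw [Real.sqrt_le_left hP0.le, hP2]
  have hsU : Real.sqrt (2 * x / U) ≤ P / t := by
    rw [Real.sqrt_le_left (by positivity), div_le_iff₀ (by linarith), div_pow]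
    calc 2 * x = P ^ 2 / t ^ 2 * t ^ 2 := by rw [← hP2]; field_simp
      _ ≤ P ^ 2 / t ^ 2 * U := by gcongr
  have hsJ : Real.sqrt J ≤ 2 * Q := by
    rw [Real.sqrt_le_left (by positivity), hJr]
    nlinarith
  have hl2Q : 1 + Real.log ((2 * Q : ℕ) : ℝ) ≤ Lg := by
    have h1 : ((2 * Q : ℕ) : ℝ) ≤ 2 * x := by rw [← hJ]; exact hJx
    have h2 : (0 : ℝ) < ((2 * Q : ℕ) : ℝ) := by
      have : 0 < 2 * Q := by omega
      exact_mod_cast this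
    have := Real.log_le_log h2 h1
    linarith
  have hl2Q0 : 0 ≤ Real.log ((2 * Q : ℕ) : ℝ) := Real.log_natCast_nonneg _
  have hsJ0 : 0 ≤ Real.sqrt J := Real.sqrt_nonneg _
  have h := hAQ Q F (XX x) (7200 * (P ^ 2 * Lg ^ 5))
    (7200 * ((2 * (P / t) + U) * P * Lg ^ 5))
    (4800 * (U * Real.sqrt J * Lg ^ 5) + 7200 * (P * Lg ^ 5))
    (x / (80000 * Lg ^ (a + 1))) hQ hF3 (XX_nonneg x hx)
    (by positivity) (by positivity) (by positivity) hD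
    (fun j hj1 hj2 => XX_sum hIS x Lg P (P / t) U J hx hLg1 hLg hU hJx hsY hsU j
      (by omega) (by rw [hJ]; exact hj2))
  have hNN : ∑ q ∈ Ioc Q (2 * Q), NN x q =
      ∑ q ∈ Ioc Q (2 * Q), ∑ f ∈ q.divisors.filter (fun f => 2 ≤ f), XX x f := rfl
  rw [← hNN] at h
  obtain ⟨E, hE⟩ : ∃ E : ℝ, E = x / (80000 * Lg ^ (a + 1)) := ⟨_, rfl⟩
  rw [← hE] at h
  have hE0 : 0 ≤ E := by rw [hE]; positivity
  have hEt : 57600 * (Lg ^ 5 * x / t) ≤ E := by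
    have h1 : Lg ^ 5 * x / t ≤ Lg ^ 5 * x / (10 ^ 10 * Lg ^ (a + 6)) := by gcongr
    have h2 : Lg ^ 5 * x / (10 ^ 10 * Lg ^ (a + 6)) = x / (10 ^ 10 * Lg ^ (a + 1)) := by
      have e : Lg ^ (a + 6) = Lg ^ 5 * Lg ^ (a + 1) := by
        rw [← pow_add]
        congr 1
        ring
      rw [e]
      field_simp
    rw [h2] at h1
    have h3 : x / (10 ^ 10 * Lg ^ (a + 1)) * 57600 ≤ E := by
      rw [hE, div_mul_eq_mul_div, div_le_div_iff₀ (by positivity) (by positivity)]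
      have : 0 ≤ x * Lg ^ (a + 1) := by positivity
      nlinarith
    linarith
  have t1 : 7200 * (P ^ 2 * Lg ^ 5) / F ≤ E := by
    have h1 : 7200 * (P ^ 2 * Lg ^ 5) / F ≤ 7200 * (P ^ 2 * Lg ^ 5) / (10 ^ 10 * Lg ^ (a + 6)) := by
      gcongr
    refine h1.trans ?_
    rw [hE, hP2, div_le_div_iff₀ (by positivity) (by positivity)]
    have e : Lg ^ (a + 6) = Lg ^ 5 * Lg ^ (a + 1) := by
      rw [← pow_add]
      congr 1
      ring
    rw [e]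
    have : 0 ≤ x * Lg ^ 5 * Lg ^ (a + 1) := by positivity
    nlinarith
  have t2 : 7200 * ((2 * (P / t) + U) * P * Lg ^ 5) ≤ E := by
    refine le_trans ?_ hEt
    have k1 : (U : ℝ) ≤ 2 * (P / t) := by
      refine hU2.trans ?_
      have : t ^ 2 ≤ P / t := by
        rw [le_div_iff₀ ht0]
        calc t ^ 2 * t = t ^ 3 := by ring
          _ ≤ P := hPt
      linarith
    calc 7200 * ((2 * (P / t) + U) * P * Lg ^ 5) ≤
        7200 * ((2 * (P / t) + 2 * (P / t)) * P * Lg ^ 5) := by gcongr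
      _ = 28800 * (Lg ^ 5 * P ^ 2 / t) := by ring
      _ = 57600 * (Lg ^ 5 * x / t) := by rw [hP2]; ring
  have t3 : (4800 * (U * Real.sqrt J * Lg ^ 5) + 7200 * (P * Lg ^ 5)) * Q ≤ E := by
    refine le_trans ?_ hEt
    have k1 : (U : ℝ) * Real.sqrt J ≤ P := by
      calc (U : ℝ) * Real.sqrt J ≤ (2 * t ^ 2) * (2 * Q) := by gcongr
        _ = Q * (4 * t ^ 2) := by ring
        _ ≤ P := hQ3
    have k2 : (Q : ℝ) ≤ P / t := by
      rw [le_div_iff₀ ht0]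
      refine le_trans ?_ hQ3
      have : t ≤ 4 * t ^ 2 := by nlinarith
      gcongr
    calc (4800 * (U * Real.sqrt J * Lg ^ 5) + 7200 * (P * Lg ^ 5)) * Q ≤
        (4800 * (P * Lg ^ 5) + 7200 * (P * Lg ^ 5)) * (P / t) := by gcongr
      _ = 12000 * (Lg ^ 5 * P ^ 2 / t) := by ring
      _ = 24000 * (Lg ^ 5 * x / t) := by rw [hP2]; ring
      _ ≤ 57600 * (Lg ^ 5 * x / t) := by
          have : 0 ≤ Lg ^ 5 * x / t := by positivity
          linarith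
  calc ∑ q ∈ Ioc Q (2 * Q), NN x q ≤ 20 * Q * (1 + Real.log ((2 * Q : ℕ) : ℝ)) *
      (E + 7200 * (P ^ 2 * Lg ^ 5) / F + 7200 * ((2 * (P / t) + U) * P * Lg ^ 5) +
        (4800 * (U * Real.sqrt J * Lg ^ 5) + 7200 * (P * Lg ^ 5)) * Q) := h
    _ ≤ 20 * Q * Lg * (E + E + E + E) := by gcongr
    _ = Q * (x / (1000 * Lg ^ a)) := by
        rw [hE, pow_succ]
        field_simp
        ring

end Pool.Agent.D0H44.KC
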