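import Mathlib
import Pool.Agent.D0H44.KC.ThC

/-! Almost all moduli, every primitive character: the final form. -/

open Finset MeasureTheory Filter

namespace Pool.Agent.D0H44.KC

open Pool.Agent.D0H44.FR

/-- the parameter `t = (2 x) ^ (1 / N)` for large `x` -/
theorem small_t2 (ε C : ℝ) (b : ℕ) (hε : 0 < ε) : ∃ m : ℕ, 40 ≤ m ∧ ∃ x₀ : ℝ, 100 ≤ x₀ ∧
    ∀ x : ℝ, x₀ ≤ x → ∃ t : ℝ, 2 * x = t ^ (6 * m) ∧ 10 ^ 6 * (1 + Real.log (2 * x)) ^ 6 ≤ t ∧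
      10 ^ 10 * (1 + Real.log (2 * x)) ^ (b + 6) ≤ t ∧ C ≤ t ∧ t ^ 40 ≤ x ^ ε := by
  obtain ⟨n, hn⟩ := exists_nat_gt (20 / ε)
  obtain ⟨m, hmd⟩ : ∃ m : ℕ, m = 40 + n := ⟨_, rfl⟩
  have hm : 40 ≤ m := by omega
  refine ⟨m, hm, ?_⟩
  obtain ⟨N, hN⟩ : ∃ N : ℕ, N = 6 * m := ⟨_, rfl⟩
  have hN0 : N ≠ 0 := by omega
  have hNr : (0 : ℝ) < N := by positivity
  have hNε : 80 ≤ ε * N := by
    have h1 : 6 * (n : ℝ) ≤ N := by
      have : 6 * n ≤ N := by omega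
      exact_mod_cast this
    rw [div_lt_iff₀ hε] at hn
    nlinarith
  have ht1 : Tendsto (fun X : ℝ => X ^ ((N : ℝ)⁻¹)) atTop atTop :=
    tendsto_rpow_atTop (by positivity)
  have hb6 : (0 : ℝ) < ((b + 6 : ℕ) : ℝ) := by
    have : 0 < b + 6 := by omega
    exact_mod_cast this
  have ht2 : ∀ᶠ X : ℝ in atTop, 10 ^ 10 * (1 + Real.log X) ^ (b + 6) ≤ X ^ ((N : ℝ)⁻¹) := by
    have h := (isLittleO_log_rpow_atTop (by positivity :
      (0 : ℝ) < (N : ℝ)⁻¹ / 2 / ((b + 6 : ℕ) : ℝ))).bound (by norm_num : (0 : ℝ) < 1 / 2)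
    have h2 := (tendsto_rpow_atTop (by positivity : (0 : ℝ) < (N : ℝ)⁻¹ / 2)).eventually_ge_atTop
      ((10 : ℝ) ^ 10)
    filter_upwards [h, h2, eventually_ge_atTop (Real.exp 1)] with X hX hX2 hX1
    have hX0 : 0 < X := (Real.exp_pos 1).trans_le hX1
    have hl : 1 ≤ Real.log X := by rwa [Real.le_log_iff_exp_le hX0]
    rw [Real.norm_of_nonneg (by linarith), Real.norm_of_nonneg (by positivity)] at hX
    have h1 : 1 + Real.log X ≤ X ^ ((N : ℝ)⁻¹ / 2 / ((b + 6 : ℕ) : ℝ)) := by linarith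
    calc 10 ^ 10 * (1 + Real.log X) ^ (b + 6) ≤
        X ^ ((N : ℝ)⁻¹ / 2) * (X ^ ((N : ℝ)⁻¹ / 2 / ((b + 6 : ℕ) : ℝ))) ^ (b + 6) := by
          gcongr
      _ = X ^ ((N : ℝ)⁻¹ / 2) * X ^ ((N : ℝ)⁻¹ / 2) := by
          congr 1
          rw [← Real.rpow_natCast, ← Real.rpow_mul hX0.le]
          congr 1
          field_simp
      _ = X ^ ((N : ℝ)⁻¹) := by
          rw [← Real.rpow_add hX0]
          congr 1
          ring
  obtain ⟨X₁, hX₁⟩ := eventually_atTop.1 ((ht1.eventually_ge_atTop C).and ht2)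
  refine ⟨max X₁ 100, le_max_right _ _, fun x hx => ?_⟩
  have hx1 : X₁ ≤ x := (le_max_left _ _).trans hx
  have hx2 : 100 ≤ x := (le_max_right _ _).trans hx
  have hx0 : 0 < x := by linarith
  obtain ⟨hCt, hLt⟩ := hX₁ (2 * x) (by linarith)
  have hlog : 0 ≤ Real.log (2 * x) := Real.log_nonneg (by linarith)
  refine ⟨(2 * x) ^ ((N : ℝ)⁻¹), ?_, ?_, hLt, hCt, ?_⟩
  · rw [← hN, Real.rpow_inv_natCast_pow (by linarith) hN0]
  · refine le_trans ?_ hLt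
    have h1 : (1 + Real.log (2 * x)) ^ 6 ≤ (1 + Real.log (2 * x)) ^ (b + 6) :=
      pow_le_pow_right₀ (by linarith) (by omega)
    have h2 : 0 ≤ (1 + Real.log (2 * x)) ^ 6 := by positivity
    linarith
  · rw [← Real.rpow_natCast, ← Real.rpow_mul (by linarith)]
    have h1 : (N : ℝ)⁻¹ * ((40 : ℕ) : ℝ) ≤ ε / 2 := by
      rw [inv_mul_le_iff₀ hNr]
      push_cast
      linarith
    calc (2 * x) ^ ((N : ℝ)⁻¹ * ((40 : ℕ) : ℝ)) ≤ (x * x) ^ ((N : ℝ)⁻¹ * ((40 : ℕ) : ℝ)) := by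
          apply Real.rpow_le_rpow (by linarith) (by nlinarith) (by positivity)
      _ ≤ (x * x) ^ (ε / 2) := by
          apply Real.rpow_le_rpow_of_exponent_le (by nlinarith) h1
      _ = x ^ ε := by
          rw [Real.mul_rpow hx0.le hx0.le, ← Real.rpow_add hx0]
          congr 1
          ring

/-- almost all moduli, every primitive character -/
theorem mainC (hW : S_W) (hPS : S_PS) (hIS : S_IS) (hPX : S_PX) (hDX : S_DX) (hEX : S_EX)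
    (hC1 : S_C1) (hC2 : S_C2) (hSW : S_SW) (hAQ : S_AQ) (hPP : S_PP) (hSM : EC.S_SM2)
    (ε : ℝ) (hε : 0 < ε) (A : ℕ) : ∃ x₀ : ℝ, 100 ≤ x₀ ∧ ∀ x : ℝ, x₀ ≤ x → ∀ Q : ℕ, 1 ≤ Q →
    (Q : ℝ) ≤ x ^ (1 / 2 - ε) → ∃ E : Finset ℕ, (E.card : ℝ) * Real.log x ^ A ≤ Q ∧
      ∀ q : ℕ, Q < q → q ≤ 2 * Q → q ∉ E → ∀ χ : DirichletCharacter ℂ q, χ.IsPrimitive →
      2 * (x ^ (1 / 3 - ε) * (Q : ℝ) ^ (1 / 3 : ℝ)) * x ≤ ∫ u in x..(2 * x), ‖pc q χ u‖ ^ 2 := by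
  obtain ⟨C, hC1', hthC⟩ := thC hW hPS hIS hPX hDX hEX hC1 hC2 hSW hAQ hPP hSM (A + 1)
  obtain ⟨m, hm, x₀, hx₀, hpar⟩ := small_t2 ε C (A + 1) hε
  refine ⟨x₀, hx₀, fun x hx Q hQ hQx => ?_⟩
  obtain ⟨t, hZ, hLt, hLt2, hCt, ht40⟩ := hpar x hx
  have hx100 : 100 ≤ x := hx₀.trans hx
  have hx0 : 0 < x := by linarith
  have ht1 : 1 ≤ t := hC1'.trans hCt
  have ht0 : 0 < t := by linarith
  have hQ0 : (1 : ℝ) ≤ Q := by exact_mod_cast hQ
  have hQpos : (0 : ℝ) < Q := by linarith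
  have hlog0 : 0 ≤ Real.log (2 * x) := Real.log_nonneg (by linarith)
  have hLg1 : 1 ≤ 1 + Real.log (2 * x) := by linarith
  have ht6 : (10 : ℝ) ^ 6 ≤ t := by
    have : (1 : ℝ) ≤ (1 + Real.log (2 * x)) ^ 6 := one_le_pow₀ hLg1
    linarith
  -- the parameter `R`
  obtain ⟨ρ, hρ⟩ : ∃ ρ : ℝ, ρ = (2 * x / ((Q : ℝ) ^ 2 * t ^ 36)) ^ (1 / 3 : ℝ) := ⟨_, rfl⟩
  have hb0 : 0 < 2 * x / ((Q : ℝ) ^ 2 * t ^ 36) := by positivity
  have hρ0 : 0 < ρ := by rw [hρ]; positivity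
  have hρ3 : ρ ^ 3 = 2 * x / ((Q : ℝ) ^ 2 * t ^ 36) := by
    rw [hρ, ← Real.rpow_natCast, ← Real.rpow_mul hb0.le]
    norm_num
  have hQ2 : (Q : ℝ) ^ 2 * t ^ 69 ≤ 2 * x := by
    have h1 : t ^ 69 ≤ x ^ (2 * ε) := by
      calc t ^ 69 ≤ t ^ 80 := pow_le_pow_right₀ ht1 (by norm_num)
        _ = (t ^ 40) ^ 2 := by ring
        _ ≤ (x ^ ε) ^ 2 := by gcongr
        _ = x ^ (2 * ε) := by
            rw [← Real.rpow_natCast, ← Real.rpow_mul hx0.le]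
            congr 1
            push_cast
            ring
    calc (Q : ℝ) ^ 2 * t ^ 69 ≤ (x ^ (1 / 2 - ε)) ^ 2 * x ^ (2 * ε) := by gcongr
      _ = x := by
          rw [← Real.rpow_natCast, ← Real.rpow_mul hx0.le, ← Real.rpow_add hx0]
          push_cast
          ring_nf
          rw [Real.rpow_one]
      _ ≤ 2 * x := by linarith
  have hρ11 : t ^ 11 ≤ ρ := by
    have h1 : (t ^ 11) ^ 3 ≤ ρ ^ 3 := by
      rw [hρ3, le_div_iff₀ (by positivity)]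
      calc (t ^ 11) ^ 3 * ((Q : ℝ) ^ 2 * t ^ 36) = (Q : ℝ) ^ 2 * t ^ 69 := by ring
        _ ≤ 2 * x := hQ2
    exact le_of_pow_le_pow_left₀ (by norm_num) hρ0.le h1
  obtain ⟨R, hR⟩ : ∃ R : ℕ, R = ⌊ρ⌋₊ := ⟨_, rfl⟩
  have hR1 : (R : ℝ) ≤ ρ := by rw [hR]; exact Nat.floor_le hρ0.le
  have hR2 : ρ < R + 1 := by rw [hR]; exact Nat.lt_floor_add_one ρ
  have ht1011 : t ^ 10 + 1 ≤ t ^ 11 := by
    have h1 : t ^ 11 = t ^ 10 * t := by ring
    have h2 : 1 ≤ t ^ 10 := one_le_pow₀ ht1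
    rw [h1]
    nlinarith
  have hRt10 : t ^ 10 ≤ R := by linarith
  have hR0 : (1 : ℝ) ≤ R := (one_le_pow₀ ht1).trans hRt10
  have hRρ : ρ ≤ 2 * R := by linarith
  have hRQ : (R : ℝ) ^ 3 * (Q : ℝ) ^ 2 * t ^ 36 ≤ 2 * x := by
    have h1 : (R : ℝ) ^ 3 ≤ ρ ^ 3 := by gcongr
    rw [hρ3, le_div_iff₀ (by positivity)] at h1
    calc (R : ℝ) ^ 3 * (Q : ℝ) ^ 2 * t ^ 36 = (R : ℝ) ^ 3 * ((Q : ℝ) ^ 2 * t ^ 36) := by ring
      _ ≤ 2 * x := h1
  obtain ⟨E, hE1, hE2⟩ := hthC m Q R t (1 + Real.log (2 * x)) x hm hZ rfl hLt hLt2 hCt hQ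
    hRt10 hRQ
  refine ⟨E, ?_, fun q hq1 hq2 hqE χ hχ => ?_⟩
  · -- the exceptional set
    have hl1 : Real.log x ≤ 1 + Real.log (2 * x) := by
      have := Real.log_le_log hx0 (by linarith : x ≤ 2 * x)
      linarith
    have hl0 : 0 ≤ Real.log x := Real.log_nonneg (by linarith)
    have hl2 : 2 ≤ 1 + Real.log (2 * x) := by
      have h1 : (1 : ℝ) ≤ Real.log (2 * x) := by
        rw [Real.le_log_iff_exp_le (by linarith)]
        exact (Real.exp_one_lt_d9.le).trans (by linarith)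
      linarith
    rw [pow_succ] at hE1
    have h1 : (E.card : ℝ) * Real.log x ^ A ≤ E.card * (1 + Real.log (2 * x)) ^ A := by gcongr
    have h2 : (E.card : ℝ) * (1 + Real.log (2 * x)) ^ A * 2 ≤ 2 * Q := by
      refine le_trans ?_ hE1
      rw [← mul_assoc]
      gcongr
    linarith
  · have h := hE2 q hq1 hq2 hqE χ hχ
    set V := ∫ u in x..(2 * x), ‖pc q χ u‖ ^ 2 with hV
    have hV0 : 0 ≤ V := by
      rw [hV]
      apply intervalIntegral.integral_nonneg (by linarith)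
      intro u _
      positivity
    have hqQ : (Q : ℝ) ≤ q := by exact_mod_cast hq1.le
    have hLg9 : 10 ^ 9 * (1 + Real.log (2 * x)) ≤ t ^ 2 := by
      have k1 : 1 + Real.log (2 * x) ≤ (1 + Real.log (2 * x)) ^ 6 := by
        calc 1 + Real.log (2 * x) = (1 + Real.log (2 * x)) ^ 1 := (pow_one _).symm
          _ ≤ _ := pow_le_pow_right₀ hLg1 (by norm_num)
      calc 10 ^ 9 * (1 + Real.log (2 * x)) ≤ 10 ^ 3 * (10 ^ 6 * (1 + Real.log (2 * x)) ^ 6) := by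
            linarith
        _ ≤ 10 ^ 3 * t := by gcongr
        _ ≤ t * t := by
            gcongr
            linarith
        _ = t ^ 2 := by ring
    have h2 : (R : ℝ) * Q * x ≤ t ^ 2 * V := by
      calc (R : ℝ) * Q * x ≤ R * q * x := by gcongr
        _ ≤ _ := h
        _ ≤ t ^ 2 * V := by gcongr
    -- the size of `ρ`
    have h3 : x ^ (1 / 3 : ℝ) / (Q : ℝ) ^ (2 / 3 : ℝ) ≤ ρ * t ^ 12 := by
      have e1 : ρ * t ^ 12 = (2 * x / (Q : ℝ) ^ 2) ^ (1 / 3 : ℝ) := by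
        have e2 : t ^ 12 = (t ^ 36) ^ (1 / 3 : ℝ) := by
          rw [← Real.rpow_natCast t 36, ← Real.rpow_mul ht0.le, ← Real.rpow_natCast]
          congr 1
          norm_num
        rw [e2, hρ, ← Real.mul_rpow hb0.le (by positivity)]
        congr 1
        field_simp
      rw [e1]
      have e3 : x ^ (1 / 3 : ℝ) / (Q : ℝ) ^ (2 / 3 : ℝ) = (x / (Q : ℝ) ^ 2) ^ (1 / 3 : ℝ) := by
        rw [Real.div_rpow hx0.le (by positivity)]
        congr 1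
        rw [← Real.rpow_natCast, ← Real.rpow_mul hQpos.le]
        congr 1
        norm_num
      rw [e3]
      apply Real.rpow_le_rpow (by positivity) _ (by norm_num)
      gcongr
      linarith
    have h4 : x ^ (1 / 3 - ε) / (Q : ℝ) ^ (2 / 3 : ℝ) =
        x ^ (1 / 3 : ℝ) / (Q : ℝ) ^ (2 / 3 : ℝ) / x ^ ε := by
      rw [Real.rpow_sub hx0]
      field_simp
    have hxε : 0 < x ^ ε := by positivity
    have h5 : 2 * (x ^ (1 / 3 - ε) / (Q : ℝ) ^ (2 / 3 : ℝ)) ≤ R / t ^ 2 := by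
      rw [h4, ← mul_div_assoc, div_le_div_iff₀ hxε (by positivity)]
      calc 2 * (x ^ (1 / 3 : ℝ) / (Q : ℝ) ^ (2 / 3 : ℝ)) * t ^ 2 ≤ 2 * (ρ * t ^ 12) * t ^ 2 := by
            gcongr
        _ ≤ 2 * ((2 * R) * t ^ 12) * t ^ 2 := by gcongr
        _ = 4 * (R * t ^ 14) := by ring
        _ ≤ t * (R * t ^ 14) := by
            gcongr
            linarith
        _ = R * t ^ 15 := by ring
        _ ≤ R * x ^ ε := by
            gcongr
            exact (pow_le_pow_right₀ ht1 (by norm_num)).trans ht40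
    have h6 : x ^ (1 / 3 - ε) * (Q : ℝ) ^ (1 / 3 : ℝ) =
        x ^ (1 / 3 - ε) / (Q : ℝ) ^ (2 / 3 : ℝ) * Q := by
      have e : (Q : ℝ) ^ (1 / 3 : ℝ) * (Q : ℝ) ^ (2 / 3 : ℝ) = Q := by
        rw [← Real.rpow_add hQpos]
        norm_num
      have hq23 : 0 < (Q : ℝ) ^ (2 / 3 : ℝ) := by positivity
      rw [div_mul_eq_mul_div, eq_div_iff hq23.ne', mul_assoc, e]
    calc 2 * (x ^ (1 / 3 - ε) * (Q : ℝ) ^ (1 / 3 : ℝ)) * x =
        2 * (x ^ (1 / 3 - ε) / (Q : ℝ) ^ (2 / 3 : ℝ)) * (Q * x) := by rw [h6]; ring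
      _ ≤ R / t ^ 2 * (Q * x) := by gcongr
      _ = R * Q * x / t ^ 2 := by ring
      _ ≤ V := by
          rw [div_le_iff₀ (by positivity)]
          linarith

end Pool.Agent.D0H44.KC
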